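import Pool.Agent.Lib.MP_7cad78_nt.NF.Fin

namespace Pool.Agent.Results.MP_7cad78_nt.AllFieldsRankZero

open Filter Pool.Agent.Lib.MP_7cad78_nt.NF

theorem result (F : Type) [Field F] [NumberField F] [DecidableEq F] :
    ∃ c : ℝ, 0 < c ∧ ∀ᶠ X : ℝ in atTop,
      c ≤ ({x ∈ fam F X | Module.rank ℤ (curve F x).Point = 0}.ncard : ℝ) / (fam F X).ncard :=
  main F

end Pool.Agent.Results.MP_7cad78_nt.AllFieldsRankZero
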