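import Pool.Agent.Lib.MP_7cad78_nt.Asm3

namespace Pool.Agent.Results.MP_7cad78_nt.RankDensity

open Filter Pool.Agent.Lib.MP_7cad78_nt Pool.Agent.Lib.MP_7cad78_nt.PR

theorem result (r : ℕ) (ε : ℝ) (hε : 0 < ε) : ∀ᶠ X : ℝ in atTop,
    ∑ j ∈ Finset.range (r + 1), law j - ε ≤
      ({p ∈ split X | Module.rank ℤ (curve p).Point ≤ r}.ncard : ℝ) / (split X).ncard :=
  rank_den r hε

end Pool.Agent.Results.MP_7cad78_nt.RankDensity
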