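import Pool.Agent.Lib.MP_7cad78_nt.Asm3

namespace Pool.Agent.Results.MP_7cad78_nt.SelmerDistribution

open Filter Topology Pool.Agent.Lib.MP_7cad78_nt Pool.Agent.Lib.MP_7cad78_nt.PR

theorem result (r : ℕ) :
    Tendsto (fun X : ℝ => ((selSet r X).ncard : ℝ) / (split X).ncard) atTop (𝓝 (law r)) :=
  sel_tend r

end Pool.Agent.Results.MP_7cad78_nt.SelmerDistribution
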